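import Pool.Agent.N71.SP.All

/-!
# Project BI: for EVERY real quadratic field the prime ideals of norm at most `D^(1/4+ε)` generate a
subgroup of index at most `C D^ε` of the class group (statements)
-/

set_option autoImplicit false

namespace Pool.Agent.N71.BI

open Finset Filter NumberField Pool.Agent.H38R2.CG
open scoped Classical

/-- BUR: the bound of Burgess for the Kronecker symbol of a fundamental discriminant, over initial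
intervals of any length at least `D^(1/4+η)`. -/
def E_BUR : Prop := ∀ η : ℝ, 0 < η → ∃ δ C : ℝ, 0 < δ ∧ 0 < C ∧ ∀ D : ℕ, IsFund D →
  ∀ X : ℕ, (D : ℝ) ^ (1 / 4 + η) ≤ X →
    |∑ n ∈ Finset.Icc 1 X, (chi D n : ℝ)| ≤ C * (D : ℝ) ^ (-δ) * X

/-- SIE: Siegel's lower bound for `Lone D`. -/
def E_SIE : Prop := ∀ ε : ℝ, 0 < ε → ∃ c : ℝ, 0 < c ∧ ∀ D : ℕ, IsFund D →
  c * (D : ℝ) ^ (-ε) ≤ Lone D

/-- CNT: the number of ideals of norm at most `x` (as a sum of divisor sums of `chi D`). -/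
def E_CNT : Prop := ∀ η ε : ℝ, 0 < η → 0 < ε → ∃ c : ℝ, 0 < c ∧ ∀ D : ℕ, IsFund D →
  ∀ x : ℕ, (D : ℝ) ^ (1 / 4 + η) ≤ x → x ≤ D →
    c * (D : ℝ) ^ (-ε) * x ≤ ∑ n ∈ Finset.Icc 1 x, ∑ m ∈ n.divisors, (chi D m : ℝ)

/-- COL: the near collisions of a finite set of ideals of norm at most `Z`. -/
def E_COL : Prop := ∀ (K : Type) [Field K] [NumberField K] (D : ℕ), IsFund D →
  Module.finrank ℚ K = 2 → NumberField.discr K = (D : ℤ) → ∀ (e : Emb K D) (Z : ℕ)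
  (F : Finset (Ideal (𝓞 K))), (∀ A ∈ F, A ≠ ⊥ ∧ Ideal.absNorm A ≤ Z) →
    ∑ A ∈ F, ∑ B ∈ F, KAB e A B ≤
      ∑ n ∈ Finset.Icc 1 (Z ^ 2), (n.divisors.card : ℝ) ^ 2 * Rsum D n

/-- RSUM: the number of solutions of `u ^ 2 - D v ^ 2 = 4 n` in the window, `n ≤ N`. -/
def E_RSUM : Prop := ∃ C : ℝ, 0 < C ∧ ∀ D N : ℕ, 1 < D → 1 ≤ N →
  ∑ n ∈ Finset.Icc 1 N, Rsum D n ≤ C * (√(N : ℝ) + N / √(D : ℝ))

/-- PRD: many distinct products of two ideals of norm at most `x`. -/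
def E_PRD : Prop := ∀ η ε : ℝ, 0 < η → 0 < ε → ∃ c : ℝ, 0 < c ∧
  ∀ (K : Type) [Field K] [NumberField K] (D : ℕ), IsFund D →
  Module.finrank ℚ K = 2 → NumberField.discr K = (D : ℤ) →
  ∀ x : ℕ, (D : ℝ) ^ (1 / 4 + η) ≤ x → x ≤ D →
    ∃ F : Finset (Ideal (𝓞 K)), (∀ A ∈ F, A ≠ ⊥ ∧ Ideal.absNorm A ≤ x ^ 2 ∧
      ∃ I J : Ideal (𝓞 K), A = I * J ∧ Ideal.absNorm I ≤ x ∧ Ideal.absNorm J ≤ x) ∧
      c * (D : ℝ) ^ (-ε) * (x : ℝ) ^ 2 ≤ F.card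

end Pool.Agent.N71.BI
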