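import Pool.Agent.N71.BI.Fin
import Pool.Agent.N665.BI.BUR
import Pool.Agent.N617.BI.SIE
import Pool.Agent.N38.BI.CNT
import Pool.Agent.N415.BI.COL
import Pool.Agent.N905.BI.RSUM
import Pool.Agent.N380.BI.PRD

set_option autoImplicit false

/-!
# Project BI: assembly
-/

namespace Pool.Agent.N71.BI

open NumberField Pool.Agent.H38R2.CG

theorem t_BI (ε : ℝ) (hε : 0 < ε) :
    ∃ C : ℝ, 0 < C ∧ ∀ (K : Type) [Field K] [NumberField K]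
    (D : ℕ), IsFund D → Module.finrank ℚ K = 2 → NumberField.discr K = (D : ℤ) →
    (Nat.card (ClassGroup (𝓞 K)) : ℝ) ≤
      C * (D : ℝ) ^ ε * ((Two K ((D : ℝ) ^ (1 / 4 + ε))).ncard : ℝ) := by
  have h_P_N0 : P_N0 := T_N0
  have h_P_SPL : P_SPL := T_SPL h_P_N0
  have h_P_N2 : P_N2 := T_N2 h_P_SPL
  have h_P_KR : P_KR := T_KR
  have h_P_PV : P_PV := T_PV
  have h_P_N3a : P_N3a := T_N3a h_P_KR h_P_PV
  have h_P_N3b : P_N3b := T_N3b h_P_KR h_P_PV h_P_N3a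
  have h_P_N3 : P_N3 := T_N3 h_P_N2 h_P_N3b
  have h_P_N4a : P_N4a := T_N4a
  have h_P_N4b : P_N4b := T_N4b
  have h_P_N4 : P_N4 := T_N4 h_P_N4a h_P_N4b
  have h_P_KF : P_KF := T_KF
  have h_P_N5b : P_N5b := T_N5b h_P_KF h_P_N4
  have hCNT := Pool.Agent.N38.BI.t_CNT Pool.Agent.N665.BI.t_BUR Pool.Agent.N617.BI.t_SIE
  exact main h_P_N0 h_P_N3 h_P_N4 h_P_KF h_P_N5b h_P_N3a Pool.Agent.N415.BI.t_COL
    Pool.Agent.N905.BI.t_RSUM (Pool.Agent.N380.BI.t_PRD hCNT) ε hε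

end Pool.Agent.N71.BI
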