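import Pool.Agent.N71.BI.All

/-!
# The prime ideals of norm at most `D^(1/4+ε)` of a real quadratic field: no exceptions

Let `ε > 0`.  There is a constant `C` such that for EVERY real quadratic field `K = ℚ(√d)`, `d > 1`
squarefree (in particular for every prime `d = p`), of discriminant `D` and class number `h`:

* at least `h / (C D^ε)` ideal classes contain a product of two integral ideals of norm at most
  `D^(1/4+ε)`;
* the classes of the prime ideals of norm at most `D^(1/4+ε)` generate a subgroup of index at most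
  `C D^ε` of the class group;
* if all the prime ideals of norm at most `D^(1/4+ε)` are principal, then `h ≤ C D^ε`.

Minkowski's bound, which gives the whole class group, needs the prime ideals of norm up to a constant
times `D^(1/2)`.

Proof: Burgess' bound for the character of the field (all moduli; Weil's bound) and Siegel's theorem give
at least `x D^(-ε')` ideals of norm at most `x = D^(1/4+ε')`, hence at least `x^2 D^(-ε'')` different products
of two of them; a positivity argument (the number of ideals in a class against the number of pairs of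
close ideals) and the count of the solutions of `u^2 - D v^2 = 4 n` for `n ≤ x^4` show that these
products lie in at least `h D^(-ε)` classes.
-/

set_option autoImplicit false

namespace Pool.Agent.N71.BI.EveryField

open Finset NumberField
open scoped Classical

/-- The nonzero prime ideals of `K` of norm at most `B`. -/
def smallPrimes (K : Type) [Field K] [NumberField K] (B : ℝ) :
    Set (nonZeroDivisors (Ideal (𝓞 K))) :=
  {𝔭 | (𝔭 : Ideal (𝓞 K)).IsPrime ∧ (Ideal.absNorm (𝔭 : Ideal (𝓞 K)) : ℝ) ≤ B}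

/-- The subgroup of the class group generated by the classes of the prime ideals of norm at most
`B`. -/
noncomputable def Gen (K : Type) [Field K] [NumberField K] (B : ℝ) :
    Subgroup (ClassGroup (𝓞 K)) :=
  Subgroup.closure ((fun 𝔭 => ClassGroup.mk0 𝔭) '' smallPrimes K B)

/-- The ideal classes that contain a product of two nonzero ideals of norm at most `B`. -/
def Products (K : Type) [Field K] [NumberField K] (B : ℝ) : Set (ClassGroup (𝓞 K)) :=
  {C | ∃ I J : nonZeroDivisors (Ideal (𝓞 K)), (Ideal.absNorm (I : Ideal (𝓞 K)) : ℝ) ≤ B ∧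
    (Ideal.absNorm (J : Ideal (𝓞 K)) : ℝ) ≤ B ∧ ClassGroup.mk0 (I * J) = C}

theorem mk0_mem (K : Type) [Field K] [NumberField K] (B : ℝ) (I : nonZeroDivisors (Ideal (𝓞 K)))
    (hI : (Ideal.absNorm (I : Ideal (𝓞 K)) : ℝ) ≤ B) : ClassGroup.mk0 I ∈ Gen K B := by
  have key : ∀ J : Ideal (𝓞 K), ∀ hJ : J ∈ nonZeroDivisors (Ideal (𝓞 K)),
      (Ideal.absNorm J : ℝ) ≤ B → ClassGroup.mk0 (⟨J, hJ⟩ : nonZeroDivisors (Ideal (𝓞 K))) ∈
        Gen K B := by
    intro J
    induction J using UniqueFactorizationMonoid.induction_on_prime with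
    | h₁ =>
      intro hJ
      exact absurd rfl (mem_nonZeroDivisors_iff_ne_zero.1 hJ)
    | h₂ J hJu =>
      intro hJ _
      have h1 : J = 1 := by
        rw [Ideal.isUnit_iff] at hJu
        rw [hJu, Ideal.one_eq_top]
      have h2 : (⟨J, hJ⟩ : nonZeroDivisors (Ideal (𝓞 K))) = 1 := Subtype.ext h1
      rw [h2, map_one]
      exact Subgroup.one_mem _
    | h₃ J p hJ0 hp ih =>
      intro hJ hB
      have hJm : J ∈ nonZeroDivisors (Ideal (𝓞 K)) := mem_nonZeroDivisors_iff_ne_zero.2 hJ0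
      have hpm : p ∈ nonZeroDivisors (Ideal (𝓞 K)) := mem_nonZeroDivisors_iff_ne_zero.2 hp.ne_zero
      have h1 : (⟨p * J, hJ⟩ : nonZeroDivisors (Ideal (𝓞 K))) = ⟨p, hpm⟩ * ⟨J, hJm⟩ :=
        Subtype.ext rfl
      have hn : Ideal.absNorm (p * J) = Ideal.absNorm p * Ideal.absNorm J := map_mul _ _ _
      have hp1 : 1 ≤ Ideal.absNorm p := Nat.one_le_iff_ne_zero.2
        (Ideal.absNorm_ne_zero_iff_mem_nonZeroDivisors.2 hpm)
      have hJ1 : 1 ≤ Ideal.absNorm J := Nat.one_le_iff_ne_zero.2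
        (Ideal.absNorm_ne_zero_iff_mem_nonZeroDivisors.2 hJm)
      have hpB : (Ideal.absNorm p : ℝ) ≤ B := by
        refine le_trans ?_ hB
        rw [hn]
        exact_mod_cast Nat.le_mul_of_pos_right _ hJ1
      have hJB : (Ideal.absNorm J : ℝ) ≤ B := by
        refine le_trans ?_ hB
        rw [hn]
        exact_mod_cast Nat.le_mul_of_pos_left _ hp1
      rw [h1, map_mul]
      refine Subgroup.mul_mem _ (Subgroup.subset_closure ⟨⟨p, hpm⟩, ⟨?_, hpB⟩, rfl⟩) (ih hJm hJB)
      exact Ideal.isPrime_of_prime hp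
  exact key I I.2 hI

/-- **Every real quadratic field.** -/
theorem result (ε : ℝ) (hε : 0 < ε) : ∃ C : ℝ, 0 < C ∧
    ∀ (d : ℕ), 1 < d → Squarefree d → ∀ (K : Type) [Field K] [NumberField K],
      Module.finrank ℚ K = 2 → (∃ x : K, x ^ 2 = (d : K)) → ∀ D : ℝ, D = (discr K : ℝ) →
      (classNumber K : ℝ) ≤ C * D ^ ε * ((Products K (D ^ (1 / 4 + ε))).ncard : ℝ) ∧
      ((Gen K (D ^ (1 / 4 + ε))).index : ℝ) ≤ C * D ^ ε ∧
      ((∀ 𝔭 ∈ smallPrimes K (D ^ (1 / 4 + ε)), (𝔭 : Ideal (𝓞 K)).IsPrincipal) →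
        (classNumber K : ℝ) ≤ C * D ^ ε) := by
  obtain ⟨C, hC, h⟩ := Pool.Agent.N71.BI.t_BI ε hε
  refine ⟨C, hC, ?_⟩
  intro d hd hsq K _ _ hK hx D hDdef
  have hdisc := Pool.Agent.H38R2.CG.T_N0d K d hd hsq hK hx
  have hfund := Pool.Agent.R345.IX.isFund_Dof hd hsq
  have hdisc' : discr K = ((Pool.Agent.R345.IX.Dof d : ℕ) : ℤ) := by
    rw [hdisc]
    unfold Pool.Agent.R345.IX.Dof
    split_ifs <;> push_cast <;> rfl
  have h1 := h K _ hfund hK hdisc'
  have hDD : ((Pool.Agent.R345.IX.Dof d : ℕ) : ℝ) = D := by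
    rw [hDdef, hdisc']
    push_cast
    rfl
  rw [hDD] at h1
  have hD1 : (0 : ℝ) ≤ D := by rw [← hDD]; exact Nat.cast_nonneg _
  have hcl : (classNumber K : ℝ) = Nat.card (ClassGroup (𝓞 K)) := by
    unfold classNumber
    rw [Nat.card_eq_fintype_card]
  have hTwo : Pool.Agent.N71.BI.Two K (D ^ (1 / 4 + ε)) = Products K (D ^ (1 / 4 + ε)) := rfl
  rw [hTwo, ← hcl] at h1
  set G := Gen K (D ^ (1 / 4 + ε)) with hG
  set R := Products K (D ^ (1 / 4 + ε)) with hR
  have hsub : R ⊆ (G : Set (ClassGroup (𝓞 K))) := by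
    rintro c ⟨I, J, hI, hJ, rfl⟩
    rw [map_mul]
    exact Subgroup.mul_mem _ (mk0_mem K _ I hI) (mk0_mem K _ J hJ)
  have h2 : (R.ncard : ℝ) ≤ Nat.card G := by
    have h3 := Set.ncard_le_ncard hsub (Set.toFinite _)
    have h4 : ((G : Subgroup (ClassGroup (𝓞 K))) : Set (ClassGroup (𝓞 K))).ncard = Nat.card G :=
      rfl
    rw [h4] at h3
    exact_mod_cast h3
  have h5 : (0 : ℝ) < Nat.card G := by exact_mod_cast Nat.card_pos
  have h6 : (classNumber K : ℝ) = Nat.card G * G.index := by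
    rw [hcl]
    exact_mod_cast (Subgroup.card_mul_index G).symm
  have hCD : 0 ≤ C * D ^ ε := by positivity
  refine ⟨h1, ?_, ?_⟩
  · have h7 : (G.index : ℝ) * Nat.card G ≤ C * D ^ ε * Nat.card G := by
      calc (G.index : ℝ) * Nat.card G = classNumber K := by rw [h6]; ring
        _ ≤ C * D ^ ε * (R.ncard : ℝ) := h1
        _ ≤ _ := mul_le_mul_of_nonneg_left h2 hCD
    exact le_of_mul_le_mul_right h7 h5
  · intro hP
    have h8 : G = ⊥ := by
      rw [hG, Gen, Subgroup.closure_eq_bot_iff]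
      rintro c ⟨𝔭, hp, rfl⟩
      rw [Set.mem_singleton_iff]
      show ClassGroup.mk0 𝔭 = 1
      rw [ClassGroup.mk0_eq_one_iff]
      exact hP _ hp
    have h9 : Nat.card G = 1 := by rw [h8]; exact Subgroup.card_bot
    rw [h9, Nat.cast_one] at h2
    calc (classNumber K : ℝ) ≤ C * D ^ ε * (R.ncard : ℝ) := h1
      _ ≤ C * D ^ ε * 1 := mul_le_mul_of_nonneg_left h2 hCD
      _ = _ := by ring

end Pool.Agent.N71.BI.EveryField
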