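import Pool.Agent.N71.BI.Stm
import Pool.Agent.R345.IXEnd
import Pool.Agent.H353R2.Z2

/-!
# Project BI: end of the proof
-/

set_option autoImplicit false

namespace Pool.Agent.N71.BI

open Finset Filter NumberField Pool.Agent.H38R2.CG Pool.Agent.H38R2.CG2 Pool.Agent.H38R2.CG3
open Pool.Agent.R345.IX (Lone_le)
open scoped Classical

/-- The classes of the products of two ideals of norm at most `B`. -/
def Two (K : Type) [Field K] [NumberField K] (B : ℝ) : Set (ClassGroup (𝓞 K)) :=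
  {C | ∃ I J : nonZeroDivisors (Ideal (𝓞 K)), ((Ideal.absNorm (I : Ideal (𝓞 K)) : ℕ) : ℝ) ≤ B ∧
    ((Ideal.absNorm (J : Ideal (𝓞 K)) : ℕ) : ℝ) ≤ B ∧ ClassGroup.mk0 (I * J) = C}

/-- number of classes of the ideals in `F` -/
theorem num (hN3 : P_N3) (h4 : P_N4) (hKF : P_KF) (h5b : P_N5b) (K : Type) [Field K]
    [NumberField K] (D : ℕ) (hD : IsFund D) (h2 : Module.finrank ℚ K = 2)
    (hK : NumberField.discr K = (D : ℤ)) (e : Emb K D)
    (F : Finset (Ideal (𝓞 K))) (hF : ∀ A ∈ F, A ≠ ⊥) :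
    ∃ T : Finset (ClassGroup (𝓞 K)), (∀ C ∈ T, ∃ A : nonZeroDivisors (Ideal (𝓞 K)),
      (A : Ideal (𝓞 K)) ∈ F ∧ ClassGroup.mk0 A = C) ∧
    (Nat.card (ClassGroup (𝓞 K)) : ℝ) * (F.card : ℝ) ^ 2 ≤
      (T.card : ℝ) * (2 * √(D : ℝ) * Lone D * ∑ A ∈ F, ∑ B ∈ F, KAB e A B) := by
  have hne : ∀ i : {A // A ∈ F}, (i : Ideal (𝓞 K)) ∈ nonZeroDivisors (Ideal (𝓞 K)) := fun i =>
    mem_nonZeroDivisors_iff_ne_zero.2 (hF i i.2)
  let A : {A // A ∈ F} → nonZeroDivisors (Ideal (𝓞 K)) := fun i => ⟨i, hne i⟩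
  have hmain := ineq_classes hN3 h4 hKF h5b K D hD h2 hK e {A // A ∈ F} A (fun _ => 1)
    (fun _ => zero_le_one)
  have e1 : ∑ i, ∑ j, (1 : ℝ) * 1 * KAB e (A i : Ideal (𝓞 K)) (A j : Ideal (𝓞 K)) =
      ∑ A ∈ F, ∑ B ∈ F, KAB e A B := by
    simp only [one_mul]
    rw [← Finset.sum_coe_sort F (fun A => ∑ B ∈ F, KAB e A B)]
    refine Finset.sum_congr rfl fun i _ => ?_
    exact Finset.sum_coe_sort F (fun B => KAB e (i : Ideal (𝓞 K)) B)
  rw [e1] at hmain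
  set N : ClassGroup (𝓞 K) → ℝ := fun C =>
    ∑ i ∈ Finset.univ.filter (fun i => ClassGroup.mk0 (A i) = C), (1 : ℝ) with hN
  refine ⟨Finset.univ.filter (fun C => N C ≠ 0), ?_, ?_⟩
  · intro C hC
    have h5 := (Finset.mem_filter.1 hC).2
    obtain ⟨i, hi, -⟩ := Finset.exists_ne_zero_of_sum_ne_zero h5
    exact ⟨A i, i.2, (Finset.mem_filter.1 hi).2⟩
  · set T : Finset (ClassGroup (𝓞 K)) := Finset.univ.filter (fun C => N C ≠ 0) with hT
    have hsum : ∑ C : ClassGroup (𝓞 K), N C = F.card := by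
      have h6 : ∑ C : ClassGroup (𝓞 K), N C = ∑ i : {A // A ∈ F}, (1 : ℝ) := by
        rw [hN]
        exact Finset.sum_fiberwise Finset.univ (fun i => ClassGroup.mk0 (A i)) (fun _ => (1 : ℝ))
      rw [h6, Finset.sum_const, nsmul_eq_mul, mul_one, Finset.card_univ, Fintype.card_coe]
    have hsumT : ∑ C ∈ T, N C = F.card := by
      rw [← hsum]
      refine Finset.sum_subset (Finset.subset_univ T) ?_
      intro C _ hC
      by_contra h
      exact hC (Finset.mem_filter.2 ⟨Finset.mem_univ _, h⟩)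
    have hCS : (F.card : ℝ) ^ 2 ≤ (T.card : ℝ) * ∑ C : ClassGroup (𝓞 K), N C ^ 2 := by
      rw [← hsumT]
      refine (sq_sum_le_card_mul_sum_sq (s := T) (f := N)).trans ?_
      refine mul_le_mul_of_nonneg_left ?_ (Nat.cast_nonneg _)
      exact Finset.sum_le_sum_of_subset_of_nonneg (Finset.subset_univ _) fun C _ _ => sq_nonneg _
    have hh : (0 : ℝ) ≤ Nat.card (ClassGroup (𝓞 K)) := Nat.cast_nonneg _
    calc (Nat.card (ClassGroup (𝓞 K)) : ℝ) * (F.card : ℝ) ^ 2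
        ≤ (Nat.card (ClassGroup (𝓞 K)) : ℝ) * ((T.card : ℝ) * ∑ C : ClassGroup (𝓞 K), N C ^ 2) :=
          mul_le_mul_of_nonneg_left hCS hh
      _ = (T.card : ℝ) * ((Nat.card (ClassGroup (𝓞 K)) : ℝ) *
          ∑ C : ClassGroup (𝓞 K), N C ^ 2) := by ring
      _ ≤ _ := mul_le_mul_of_nonneg_left hmain (Nat.cast_nonneg _)

theorem Two_mono {K : Type} [Field K] [NumberField K] {B B' : ℝ} (h : B ≤ B') :
    Two K B ⊆ Two K B' := by
  rintro C ⟨I, J, h1, h2, h3⟩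
  exact ⟨I, J, h1.trans h, h2.trans h, h3⟩

theorem one_mem_Two {K : Type} [Field K] [NumberField K] {B : ℝ} (h : 1 ≤ B) :
    (1 : ClassGroup (𝓞 K)) ∈ Two K B := by
  refine ⟨1, 1, ?_, ?_, ?_⟩
  · simpa using h
  · simpa using h
  · rw [mul_one, map_one]

theorem ncard_pos {K : Type} [Field K] [NumberField K] {B : ℝ} (h : 1 ≤ B) :
    (1 : ℝ) ≤ (Two K B).ncard := by
  have : 0 < (Two K B).ncard := (Set.ncard_pos (Set.toFinite _)).2 ⟨1, one_mem_Two h⟩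
  exact_mod_cast this

/-- a crude bound for the class number -/
theorem crude (hN0 : P_N0) (hN3 : P_N3) (h4 : P_N4) (hKF : P_KF) (h5b : P_N5b) (hN3a : P_N3a)
    (hCOL : E_COL) (hRSUM : E_RSUM) : ∃ C : ℝ, 0 < C ∧ ∀ (K : Type) [Field K] [NumberField K]
    (D : ℕ), IsFund D → Module.finrank ℚ K = 2 → NumberField.discr K = (D : ℤ) →
    (Nat.card (ClassGroup (𝓞 K)) : ℝ) ≤ C * (D : ℝ) ^ 2 := by
  obtain ⟨CL, hCL, hLone⟩ := Lone_le hN3a
  obtain ⟨CR, hCR, hR⟩ := hRSUM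
  refine ⟨8 * CL * CR, by positivity, fun K _ _ D hD h2 hK => ?_⟩
  obtain ⟨e⟩ := hN0 K D hD h2 hK
  have hD1 : 1 < D := hD.1
  have hDr : (1 : ℝ) < D := by exact_mod_cast hD1
  obtain ⟨T, hT, hT2⟩ := num hN3 h4 hKF h5b K D hD h2 hK e {⊤} (by
    intro A hA
    rw [Finset.mem_singleton] at hA
    rw [hA]
    exact top_ne_bot)
  have hTcard : (T.card : ℝ) ≤ 1 := by
    have : T.card ≤ 1 := by
      rw [Finset.card_le_one]
      intro a ha b hb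
      obtain ⟨A, hA, rfl⟩ := hT a ha
      obtain ⟨B, hB, rfl⟩ := hT b hb
      rw [Finset.mem_singleton] at hA hB
      congr 1
      exact Subtype.ext (hA.trans hB.symm)
    exact_mod_cast this
  have hcol := hCOL K D hD h2 hK e 1 {⊤} (by
    intro A hA
    rw [Finset.mem_singleton] at hA
    rw [hA]
    exact ⟨top_ne_bot, by simp⟩)
  have h1 := hR D 1 hD1 le_rfl
  rw [one_pow, Finset.Icc_self] at hcol
  have e1 : ∑ n ∈ ({1} : Finset ℕ), (n.divisors.card : ℝ) ^ 2 * Rsum D n = Rsum D 1 := by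
    rw [Finset.sum_singleton, Nat.divisors_one, Finset.card_singleton, Nat.cast_one, one_pow,
      one_mul]
  rw [e1] at hcol
  rw [Finset.Icc_self, Finset.sum_singleton] at h1
  have hs1 : 1 ≤ √(D : ℝ) := Real.one_le_sqrt.2 hDr.le
  have hsD : √(D : ℝ) ≤ D := by
    rw [Real.sqrt_le_left (by linarith)]
    nlinarith
  have h3 : ∑ A ∈ ({⊤} : Finset (Ideal (𝓞 K))), ∑ B ∈ ({⊤} : Finset (Ideal (𝓞 K))), KAB e A B ≤
      2 * CR := by
    refine hcol.trans ?_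
    refine h1.trans ?_
    rw [Nat.cast_one, Real.sqrt_one]
    have : 1 / √(D : ℝ) ≤ 1 := by
      rw [div_le_one (by linarith)]
      exact hs1
    nlinarith
  have hlog : 1 + Real.log D ≤ 2 * D := by
    have := Real.log_le_sub_one_of_pos (show (0 : ℝ) < D by linarith)
    linarith
  have hL0 : 0 ≤ Lone D := (hN3 K D hD h2 hK).1
  have hL : Lone D ≤ CL * (2 * D) := (hLone D hD).trans (mul_le_mul_of_nonneg_left hlog hCL.le)
  have hcard1 : ((({⊤} : Finset (Ideal (𝓞 K))).card : ℕ) : ℝ) = 1 := by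
    rw [Finset.card_singleton, Nat.cast_one]
  rw [hcard1, one_pow, mul_one] at hT2
  have hnn : 0 ≤ ∑ A ∈ ({⊤} : Finset (Ideal (𝓞 K))), ∑ B ∈ ({⊤} : Finset (Ideal (𝓞 K))),
      KAB e A B := Finset.sum_nonneg fun A _ => Finset.sum_nonneg fun B _ => N5h.KAB_nonneg e _ _
  calc (Nat.card (ClassGroup (𝓞 K)) : ℝ) ≤ (T.card : ℝ) * (2 * √(D : ℝ) * Lone D *
        ∑ A ∈ ({⊤} : Finset (Ideal (𝓞 K))), ∑ B ∈ ({⊤} : Finset (Ideal (𝓞 K))), KAB e A B) := hT2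
    _ ≤ 1 * (2 * D * (CL * (2 * D)) * (2 * CR)) := by gcongr
    _ = 8 * CL * CR * (D : ℝ) ^ 2 := by ring

/-- **The main inequality, for every real quadratic field.** -/
theorem main (hN0 : P_N0) (hN3 : P_N3) (h4 : P_N4) (hKF : P_KF) (h5b : P_N5b) (hN3a : P_N3a)
    (hCOL : E_COL) (hRSUM : E_RSUM) (hPRD : E_PRD) (ε : ℝ) (hε : 0 < ε) :
    ∃ C : ℝ, 0 < C ∧ ∀ (K : Type) [Field K] [NumberField K]
    (D : ℕ), IsFund D → Module.finrank ℚ K = 2 → NumberField.discr K = (D : ℤ) →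
    (Nat.card (ClassGroup (𝓞 K)) : ℝ) ≤
      C * (D : ℝ) ^ ε * ((Two K ((D : ℝ) ^ (1 / 4 + ε))).ncard : ℝ) := by
  obtain ⟨Cc, hCc, hcrude⟩ := crude hN0 hN3 h4 hKF h5b hN3a hCOL hRSUM
  obtain ⟨CL, hCL, hLone⟩ := Lone_le hN3a
  obtain ⟨CR, hCR, hR⟩ := hRSUM
  set ε0 : ℝ := min ε 1 with hε0
  have hε0pos : 0 < ε0 := lt_min hε one_pos
  have hε01 : ε0 ≤ 1 := min_le_right _ _
  have hε0ε : ε0 ≤ ε := min_le_left _ _
  obtain ⟨Cτ, hCτ, hτ⟩ := H353.divisor_bound_real (ε0 / 64) (by positivity)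
  obtain ⟨c, hc, hprd⟩ := hPRD (ε0 / 8) (ε0 / 16) (by positivity) (by positivity)
  set D0 : ℝ := (2 : ℝ) ^ (8 / (7 * ε0)) with hD0
  have hD0pos : 0 < D0 := Real.rpow_pos_of_pos (by norm_num) _
  set C1 : ℝ := 4 * CL * Cτ ^ 2 * CR / c ^ 2 * (1 + 8 / ε0) with hC1
  have hC1pos : 0 < C1 := by positivity
  refine ⟨max C1 (Cc * D0 ^ 2), lt_max_of_lt_left hC1pos, fun K _ _ D hD h2 hK => ?_⟩
  have hD1 : 1 < D := hD.1
  have hDr : (1 : ℝ) < D := by exact_mod_cast hD1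
  have hDp : (0 : ℝ) < D := by linarith
  have hB1 : 1 ≤ (D : ℝ) ^ (1 / 4 + ε) := Real.one_le_rpow hDr.le (by positivity)
  have hDε : 1 ≤ (D : ℝ) ^ ε := Real.one_le_rpow hDr.le hε.le
  have hR1 : (1 : ℝ) ≤ ((Two K ((D : ℝ) ^ (1 / 4 + ε))).ncard : ℝ) := ncard_pos hB1
  rcases lt_or_ge ((D : ℝ) ^ (7 * ε0 / 8)) 2 with hsmall | hbig
  · -- small discriminants
    have hDD0 : (D : ℝ) ≤ D0 := by
      have h5 : (D : ℝ) = ((D : ℝ) ^ (7 * ε0 / 8)) ^ (8 / (7 * ε0)) := by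
        rw [← Real.rpow_mul hDp.le]
        rw [show 7 * ε0 / 8 * (8 / (7 * ε0)) = 1 by field_simp, Real.rpow_one]
      rw [h5, hD0]
      exact Real.rpow_le_rpow (by positivity) hsmall.le (by positivity)
    calc (Nat.card (ClassGroup (𝓞 K)) : ℝ) ≤ Cc * (D : ℝ) ^ 2 := hcrude K D hD h2 hK
      _ ≤ Cc * D0 ^ 2 := by gcongr
      _ ≤ max C1 (Cc * D0 ^ 2) := le_max_right _ _
      _ = max C1 (Cc * D0 ^ 2) * 1 * 1 := by ring
      _ ≤ _ := by
        have : 0 < max C1 (Cc * D0 ^ 2) := lt_max_of_lt_left hC1pos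
        gcongr
  · -- large discriminants
    obtain ⟨e⟩ := hN0 K D hD h2 hK
    set x : ℕ := ⌈(D : ℝ) ^ (1 / 4 + ε0 / 8)⌉₊ with hx
    have hx1 : (D : ℝ) ^ (1 / 4 + ε0 / 8) ≤ x := Nat.le_ceil _
    have hxD : x ≤ D := by
      rw [hx, Nat.ceil_le]
      calc (D : ℝ) ^ (1 / 4 + ε0 / 8) ≤ (D : ℝ) ^ (1 : ℝ) :=
            Real.rpow_le_rpow_of_exponent_le hDr.le (by linarith)
        _ = D := Real.rpow_one _
    have hone : 1 ≤ (D : ℝ) ^ (1 / 4 + ε0 / 8) := Real.one_le_rpow hDr.le (by positivity)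
    have hx1' : (1 : ℝ) ≤ x := hone.trans hx1
    have hxpos : (0 : ℝ) < x := by linarith
    have hx1n : 1 ≤ x := by exact_mod_cast hx1'
    have hxB : (x : ℝ) ≤ (D : ℝ) ^ (1 / 4 + ε) := by
      have h5 : (x : ℝ) < (D : ℝ) ^ (1 / 4 + ε0 / 8) + 1 := Nat.ceil_lt_add_one (by positivity)
      calc (x : ℝ) ≤ (D : ℝ) ^ (1 / 4 + ε0 / 8) * 2 := by linarith
        _ ≤ (D : ℝ) ^ (1 / 4 + ε0 / 8) * (D : ℝ) ^ (7 * ε0 / 8) := by gcongr
        _ = (D : ℝ) ^ (1 / 4 + ε0) := by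
            rw [← Real.rpow_add hDp]
            congr 1
            ring
        _ ≤ _ := Real.rpow_le_rpow_of_exponent_le hDr.le (by linarith)
    obtain ⟨F, hF1, hF2⟩ := hprd K D hD h2 hK x hx1 hxD
    obtain ⟨T, hT, hT2⟩ := num hN3 h4 hKF h5b K D hD h2 hK e F (fun A hA => (hF1 A hA).1)
    have hcol := hCOL K D hD h2 hK e (x ^ 2) F (fun A hA => ⟨(hF1 A hA).1, (hF1 A hA).2.1⟩)
    set S : ℝ := ∑ A ∈ F, ∑ B ∈ F, KAB e A B with hS
    have hS0 : 0 ≤ S := Finset.sum_nonneg fun A _ => Finset.sum_nonneg fun B _ =>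
      N5h.KAB_nonneg e _ _
    set R : ℝ := ((Two K ((D : ℝ) ^ (1 / 4 + ε))).ncard : ℝ) with hRdef
    have hTR : (T.card : ℝ) ≤ R := by
      have hsub : (T : Set (ClassGroup (𝓞 K))) ⊆ Two K ((D : ℝ) ^ (1 / 4 + ε)) := by
        intro C hC
        obtain ⟨A, hA, hAC⟩ := hT C (Finset.mem_coe.1 hC)
        obtain ⟨hA0, -, I, J, hIJ, hI, hJ⟩ := hF1 _ hA
        have hI0 : I ≠ 0 := by
          rintro rfl
          exact hA0 (by rw [hIJ, zero_mul]; rfl)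
        have hJ0 : J ≠ 0 := by
          rintro rfl
          exact hA0 (by rw [hIJ, mul_zero]; rfl)
        refine ⟨⟨I, mem_nonZeroDivisors_iff_ne_zero.2 hI0⟩,
          ⟨J, mem_nonZeroDivisors_iff_ne_zero.2 hJ0⟩, ?_, ?_, ?_⟩
        · have : ((Ideal.absNorm I : ℕ) : ℝ) ≤ x := by exact_mod_cast hI
          exact this.trans hxB
        · have : ((Ideal.absNorm J : ℕ) : ℝ) ≤ x := by exact_mod_cast hJ
          exact this.trans hxB
        · rw [← hAC]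
          congr 1
          exact Subtype.ext hIJ.symm
      have h1 : (T : Set (ClassGroup (𝓞 K))).ncard ≤
          (Two K ((D : ℝ) ^ (1 / 4 + ε))).ncard := Set.ncard_le_ncard hsub (Set.toFinite _)
      rw [Set.ncard_coe_finset] at h1
      rw [hRdef]
      exact_mod_cast h1
    have hR0 : 0 ≤ R := Nat.cast_nonneg _
    -- the near collisions
    have hsD : 0 < √(D : ℝ) := Real.sqrt_pos.2 hDp
    have hsx : √(D : ℝ) ≤ (x : ℝ) ^ 2 := by
      have h5 : (D : ℝ) ^ (1 / 4 : ℝ) ≤ x :=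
        (Real.rpow_le_rpow_of_exponent_le hDr.le (by linarith)).trans hx1
      calc √(D : ℝ) = (D : ℝ) ^ (1 / 2 : ℝ) := Real.sqrt_eq_rpow _
        _ = ((D : ℝ) ^ (1 / 4 : ℝ)) ^ 2 := by
            rw [← Real.rpow_natCast, ← Real.rpow_mul hDp.le]
            norm_num
        _ ≤ (x : ℝ) ^ 2 := by gcongr
    have hS1 : S ≤ Cτ ^ 2 * (D : ℝ) ^ (ε0 / 8) * (CR * (2 * ((x : ℝ) ^ 4 / √(D : ℝ)))) := by
      refine hcol.trans ?_
      have h5 : ∀ n ∈ Finset.Icc 1 ((x ^ 2) ^ 2), (n.divisors.card : ℝ) ^ 2 * Rsum D n ≤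
          (Cτ ^ 2 * (D : ℝ) ^ (ε0 / 8)) * Rsum D n := by
        intro n hn
        obtain ⟨hn1, hn2⟩ := Finset.mem_Icc.1 hn
        have hRn : 0 ≤ Rsum D n := by
          unfold Rsum
          refine Finset.sum_nonneg fun u _ => Finset.sum_nonneg fun v _ => ?_
          split_ifs
          · exact TB5h.phi_nonneg _
          · exact le_rfl
        refine mul_le_mul_of_nonneg_right ?_ hRn
        have hnr : (n : ℝ) ≤ (D : ℝ) ^ (4 : ℝ) := by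
          have h6 : n ≤ D ^ 4 := by
            refine hn2.trans ?_
            rw [← pow_mul]
            exact Nat.pow_le_pow_left hxD 4
          calc (n : ℝ) ≤ ((D ^ 4 : ℕ) : ℝ) := by exact_mod_cast h6
            _ = (D : ℝ) ^ (4 : ℝ) := by
                rw [Nat.cast_pow, ← Real.rpow_natCast]
                norm_num
        calc (n.divisors.card : ℝ) ^ 2 ≤ (Cτ * (n : ℝ) ^ (ε0 / 64)) ^ 2 := by
              have := hτ n (by omega)
              gcongr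
          _ ≤ (Cτ * ((D : ℝ) ^ (4 : ℝ)) ^ (ε0 / 64)) ^ 2 := by
              have := Real.rpow_le_rpow (Nat.cast_nonneg n) hnr (by positivity : 0 ≤ ε0 / 64)
              gcongr
          _ = Cτ ^ 2 * (D : ℝ) ^ (ε0 / 8) := by
              rw [mul_pow, ← Real.rpow_mul hDp.le, ← Real.rpow_natCast ((D : ℝ) ^ _) 2,
                ← Real.rpow_mul hDp.le]
              congr 2
              push_cast
              ring
      refine (Finset.sum_le_sum h5).trans ?_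
      rw [← Finset.mul_sum]
      have hN1 : 1 ≤ (x ^ 2) ^ 2 := Nat.one_le_pow _ _ (Nat.one_le_pow _ _ hx1n)
      have h6 := hR D ((x ^ 2) ^ 2) hD1 hN1
      have h7 : √(((x ^ 2) ^ 2 : ℕ) : ℝ) = (x : ℝ) ^ 2 := by
        push_cast
        exact Real.sqrt_sq (by positivity)
      have h8 : (((x ^ 2) ^ 2 : ℕ) : ℝ) = (x : ℝ) ^ 4 := by
        push_cast
        ring
      rw [h7, h8] at h6
      refine mul_le_mul_of_nonneg_left (h6.trans ?_) (by positivity)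
      apply mul_le_mul_of_nonneg_left _ hCR.le
      have h9 : (x : ℝ) ^ 2 ≤ (x : ℝ) ^ 4 / √(D : ℝ) := by
        rw [le_div_iff₀ hsD]
        calc (x : ℝ) ^ 2 * √(D : ℝ) ≤ (x : ℝ) ^ 2 * (x : ℝ) ^ 2 := by gcongr
          _ = (x : ℝ) ^ 4 := by ring
      linarith
    have hlog : 1 + Real.log D ≤ (1 + 8 / ε0) * (D : ℝ) ^ (ε0 / 8) := by
      have h5 := Real.log_le_rpow_div hDp.le (show 0 < ε0 / 8 by positivity)
      have h6 : 1 ≤ (D : ℝ) ^ (ε0 / 8) := Real.one_le_rpow hDr.le (by positivity)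
      have h7 : (D : ℝ) ^ (ε0 / 8) / (ε0 / 8) = 8 / ε0 * (D : ℝ) ^ (ε0 / 8) := by
        field_simp
      rw [h7] at h5
      linarith
    have hL0 : 0 ≤ Lone D := (hN3 K D hD h2 hK).1
    have hL : Lone D ≤ CL * ((1 + 8 / ε0) * (D : ℝ) ^ (ε0 / 8)) :=
      (hLone D hD).trans (mul_le_mul_of_nonneg_left hlog hCL.le)
    have hDm : 0 < (D : ℝ) ^ (-(ε0 / 16)) := Real.rpow_pos_of_pos hDp _
    set h : ℝ := (Nat.card (ClassGroup (𝓞 K)) : ℝ) with hh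
    have hh0 : 0 ≤ h := Nat.cast_nonneg _
    have hkey : h * (c * (D : ℝ) ^ (-(ε0 / 16)) * (x : ℝ) ^ 2) ^ 2 ≤
        R * (2 * √(D : ℝ) * (CL * ((1 + 8 / ε0) * (D : ℝ) ^ (ε0 / 8))) *
          (Cτ ^ 2 * (D : ℝ) ^ (ε0 / 8) * (CR * (2 * ((x : ℝ) ^ 4 / √(D : ℝ)))))) := by
      calc h * (c * (D : ℝ) ^ (-(ε0 / 16)) * (x : ℝ) ^ 2) ^ 2 ≤ h * (F.card : ℝ) ^ 2 := by gcongr
        _ ≤ (T.card : ℝ) * (2 * √(D : ℝ) * Lone D * S) := hT2
        _ ≤ _ := by gcongr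
    have hx4 : (0 : ℝ) < (x : ℝ) ^ 4 := by positivity
    have h9 : (D : ℝ) ^ (-(ε0 / 16)) * (D : ℝ) ^ (-(ε0 / 16)) * (D : ℝ) ^ (ε0 / 8) = 1 := by
      rw [← Real.rpow_add hDp, ← Real.rpow_add hDp]
      rw [show -(ε0 / 16) + -(ε0 / 16) + ε0 / 8 = 0 by ring, Real.rpow_zero]
    have hfin : h ≤ R * (C1 * ((D : ℝ) ^ (ε0 / 8) * (D : ℝ) ^ (ε0 / 8) * (D : ℝ) ^ (ε0 / 8))) := by
      have hpos : 0 < (c * (D : ℝ) ^ (-(ε0 / 16)) * (x : ℝ) ^ 2) ^ 2 := by positivity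
      refine le_of_mul_le_mul_right (hkey.trans (le_of_eq ?_)) hpos
      have e1 : (c * (D : ℝ) ^ (-(ε0 / 16)) * (x : ℝ) ^ 2) ^ 2 =
          c ^ 2 * ((D : ℝ) ^ (-(ε0 / 16)) * (D : ℝ) ^ (-(ε0 / 16))) * (x : ℝ) ^ 4 := by ring
      rw [e1, hC1]
      set a := (D : ℝ) ^ (ε0 / 8) with ha
      set b := (D : ℝ) ^ (-(ε0 / 16)) with hb
      have e2 : R * (4 * CL * Cτ ^ 2 * CR / c ^ 2 * (1 + 8 / ε0) * (a * a * a)) *
          (c ^ 2 * (b * b) * (x : ℝ) ^ 4) =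
          R * (4 * CL * Cτ ^ 2 * CR * (1 + 8 / ε0) * (a * a)) * (x : ℝ) ^ 4 * (b * b * a) := by
        field_simp
      rw [e2, h9]
      field_simp
      ring
    refine hfin.trans ?_
    have h10 : (D : ℝ) ^ (ε0 / 8) * (D : ℝ) ^ (ε0 / 8) * (D : ℝ) ^ (ε0 / 8) ≤ (D : ℝ) ^ ε := by
      rw [← Real.rpow_add hDp, ← Real.rpow_add hDp]
      exact Real.rpow_le_rpow_of_exponent_le hDr.le (by linarith)
    calc R * (C1 * ((D : ℝ) ^ (ε0 / 8) * (D : ℝ) ^ (ε0 / 8) * (D : ℝ) ^ (ε0 / 8)))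
        ≤ R * (max C1 (Cc * D0 ^ 2) * (D : ℝ) ^ ε) := by
          have := le_max_left C1 (Cc * D0 ^ 2)
          gcongr
      _ = _ := by ring

end Pool.Agent.N71.BI
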